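import Pool.Agent.H77.AB.LFin
import Pool.Agent.H83.LW.TDAL
import Pool.Agent.H36.RT.Final
import Pool.Agent.H38.ML.SpecBridge

/-!
# H77-UN-BR: the two bounds for groups with an abelian subgroup of index `p` in the Sylow part

`lo_b`: the lower bound (`H83.LW.td_all'`), `up_b`: the upper bound for nilpotent groups
(`H77.AB.cmain`).
-/

set_option autoImplicit false

open scoped NumberField
open H38.ML

noncomputable section

namespace H77.UN

theorem lo_b {n : ℕ} (hn : 2 ≤ n) (G : Subgroup (Equiv.Perm (Fin n)))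
    (hG : MulAction.IsPretransitive G (Fin n)) {p : ℕ} (hp : p.Prime) (hpG : p ∣ Nat.card G)
    (hleast : ∀ g : G, orderOf g = p ↔ g ≠ 1 ∧ ind (g : Equiv.Perm (Fin n)) = indG G)
    (N : Subgroup G) (hN : N.Normal) (htow : Spec.GoodTower N) (hNp : ¬ p ∣ Nat.card N)
    (P F : Type) [Group P] [Group F] [Finite P] [Finite F] (φ : G ⧸ N ≃* P × F)
    (hP : IsPGroup p P) (hFp : ¬ p ∣ Nat.card F)
    (A₀ : Subgroup P) (hi : A₀.index = p) (hcomm : ∀ a ∈ A₀, ∀ b ∈ A₀, a * b = b * a) :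
    ∃ K₀ : IntermediateField ℚ QBar, NumberField K₀ ∧
      ∀ K : IntermediateField ℚ QBar, K₀ ≤ K → ∀ _ : NumberField K,
        ∃ c B₀ : ℝ, 0 < c ∧ ∀ B : ℝ, B₀ ≤ B →
          ((⌈c * B ^ (1 / (indG G : ℝ)) * Real.log B ^ (Spec.betaAll K QBar G - 1)⌉₊ : ℕ) : ℕ∞) ≤
            Spec.nK K QBar G B := by
  obtain ⟨K₀, hK₀, h⟩ := H83.LW.td_all' hn G hG hp hpG hleast N hN (goodTower_of_spec htow) hNp
    P F φ hP hFp (realizable_of_spec (H36.RT.realizable_all F)) A₀ hi hcomm
  refine ⟨K₀, NumberField.of_module_finite ℚ K₀, fun K hK hKf => ?_⟩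
  obtain ⟨c, hc, B₀, hB⟩ := h K hK hKf.to_finiteDimensional
  exact ⟨c, B₀, hc, fun B hBB => (hB B hBB).trans (nK_le_spec hn G K B)⟩

theorem up_b {n : ℕ} (hn : 2 ≤ n) (G : Subgroup (Equiv.Perm (Fin n)))
    (hG : MulAction.IsPretransitive G (Fin n)) (hnil : Group.IsNilpotent G) {p : ℕ}
    (hp : p.Prime)
    (hleast : ∀ g : G, orderOf g = p ↔ g ≠ 1 ∧ ind (g : Equiv.Perm (Fin n)) = indG G)
    (N : Subgroup G) [N.Normal] (hNp : ¬ p ∣ Nat.card N)
    (P F : Type) [Group P] [Group F] [Finite P] [Finite F] (φ : G ⧸ N ≃* P × F)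
    (hFp : ¬ p ∣ Nat.card F)
    (A₀ : Subgroup P) (hi : A₀.index = p) (hcomm : ∀ a ∈ A₀, ∀ b ∈ A₀, a * b = b * a) :
    ∃ K₀ : IntermediateField ℚ QBar, NumberField K₀ ∧
      ∀ K : IntermediateField ℚ QBar, K₀ ≤ K → ∀ _ : NumberField K,
        ∃ C B₀ : ℝ, 0 < C ∧ ∀ B : ℝ, B₀ ≤ B → ∃ k : ℕ,
          Spec.nK K QBar G B = (k : ℕ∞) ∧
          (k : ℝ) ≤ C * B ^ (1 / (indG G : ℝ)) *
            Real.log B ^ (Spec.betaAll K QBar G - 1) := by
  classical
  haveI : Fact p.Prime := ⟨hp⟩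
  let f : G →* P := (MonoidHom.fst P F).comp (φ.toMonoidHom.comp (QuotientGroup.mk' N))
  let f2 : G →* F := (MonoidHom.snd P F).comp (φ.toMonoidHom.comp (QuotientGroup.mk' N))
  have hf : Function.Surjective f := by
    intro x
    obtain ⟨y, hy⟩ := φ.surjective (x, 1)
    obtain ⟨z, rfl⟩ := QuotientGroup.mk'_surjective N y
    exact ⟨z, congrArg Prod.fst hy⟩
  have hker : ∀ x : G, f x = 1 → f2 x = 1 → x ∈ N := by
    intro x h1 h2
    have h3 : φ (QuotientGroup.mk' N x) = 1 := Prod.ext h1 h2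
    have h4 : QuotientGroup.mk' N x = 1 := by
      apply φ.injective
      rw [h3, map_one]
    rwa [QuotientGroup.mk'_apply, QuotientGroup.eq_one_iff] at h4
  obtain ⟨S⟩ : Nonempty (Sylow p G) := inferInstance
  have hSn : (S : Subgroup G).Normal := by
    have h := (isNilpotent_of_finite_tfae (G := G)).out 0 3
    exact h.1 hnil p inferInstance S
  have hT : ∀ a : G, a ∈ Subgroup.closure {g : G | g ^ p = 1} → a ∈ (S : Subgroup G) := by
    intro a ha
    refine (Subgroup.closure_le (S : Subgroup G)).2 ?_ ha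
    intro g hg
    have hg' : g ^ p = 1 := hg
    have hpg : IsPGroup p (Subgroup.zpowers g) := by
      intro x
      refine ⟨1, ?_⟩
      obtain ⟨x, k, rfl⟩ := x
      apply Subtype.ext
      show (g ^ k) ^ (p ^ 1) = 1
      rw [pow_one, ← zpow_natCast, ← zpow_mul, mul_comm, zpow_mul, zpow_natCast, hg', one_zpow]
    obtain ⟨Q, hQ⟩ := hpg.exists_le_sylow
    have : Unique (Sylow p G) := Sylow.unique_of_normal S hSn
    have hQS : Q = S := Subsingleton.elim _ _
    rw [hQS] at hQ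
    exact hQ (Subgroup.mem_zpowers g)
  have hSp : IsPGroup p (S : Subgroup G) := S.2
  have hpow : ∀ x : G, x ∈ (S : Subgroup G) → x ∈ N → x = 1 := by
    intro x h1 h2
    obtain ⟨k, hk⟩ := hSp ⟨x, h1⟩
    have hk' : x ^ (p ^ k) = 1 := congrArg Subtype.val hk
    have h3 : orderOf x ∣ p ^ k := orderOf_dvd_of_pow_eq_one hk'
    have h4 : orderOf x ∣ Nat.card N := by
      have h5 : orderOf (⟨x, h2⟩ : N) ∣ Nat.card N := orderOf_dvd_natCard _
      rwa [Subgroup.orderOf_mk] at h5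
    have h6 : Nat.Coprime (p ^ k) (Nat.card N) :=
      Nat.Coprime.pow_left k ((Nat.Prime.coprime_iff_not_dvd hp).2 hNp)
    exact orderOf_eq_one_iff.1 (Nat.eq_one_of_dvd_coprimes h6 h3 h4)
  refine H77.AB.cmain hn G hG hnil hp (fun h hh => ?_) (A₀.comap f) ?_ ?_
  · constructor
    · intro h1
      rw [← (hleast h).2 ⟨hh, h1⟩]
      exact pow_orderOf_eq_one h
    · intro h1
      exact ((hleast h).1 (orderOf_eq_prime h1 hh)).2
  · rw [Subgroup.index_comap_of_surjective _ hf, hi]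
  · intro m hm a ham haT
    have haS := hT a haT
    have hfm : f m ∈ A₀ := hm
    have hfa : f a ∈ A₀ := ham
    have hf2a : f2 a = 1 := by
      obtain ⟨k, hk⟩ := hSp ⟨a, haS⟩
      have hk' : a ^ (p ^ k) = 1 := congrArg Subtype.val hk
      have h3 : orderOf (f2 a) ∣ p ^ k := by
        apply orderOf_dvd_of_pow_eq_one
        rw [← map_pow, hk', map_one]
      have h4 : orderOf (f2 a) ∣ Nat.card F := orderOf_dvd_natCard _
      have h6 : Nat.Coprime (p ^ k) (Nat.card F) :=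
        Nat.Coprime.pow_left k ((Nat.Prime.coprime_iff_not_dvd hp).2 hFp)
      exact orderOf_eq_one_iff.1 (Nat.eq_one_of_dvd_coprimes h6 h3 h4)
    have hx : m * a * m⁻¹ * a⁻¹ = 1 := by
      apply hpow
      · exact mul_mem (hSn.conj_mem a haS m) (inv_mem haS)
      · apply hker
        · simp only [map_mul, map_inv]
          rw [hcomm _ hfm _ hfa, mul_inv_cancel_right, mul_inv_cancel]
        · simp only [map_mul, map_inv, hf2a]
          simp
    have h7 : m * a = (m * a * m⁻¹ * a⁻¹) * (a * m) := by group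
    rw [h7, hx, one_mul]

end H77.UN
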